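import Pool.Agent.Work.MP_a20dfd.Fin98

/-!
# MP_a20dfd_al: the lower bound for projective dimensions of singular simples

For a finite Coxeter system `(W, S)`, a subset `I` of `S` and `x` longest in `x W_I` the inequality
`a(w₀ x) + a(w₀ w_I) ≤ s(x)` is proved: without any hypothesis if all irreducible components of
`(W, S)` have rank at most two, and in general from the nonnegativity of the coefficients of the
Kazhdan-Lusztig polynomials, of the structure constants of the Kazhdan-Lusztig basis and of the
parabolic polynomials `n`.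
-/

set_option autoImplicit false

namespace Pool.Agent.Results.MP_a20dfd_al.ProjDimBound

open Pool.Agent.Work.MP_a20dfd

/-- Let `(W, S)` be a finite Coxeter system. It has Kazhdan-Lusztig data `K` (Hecke algebra, bar
involution, Kazhdan-Lusztig basis). Let `K` be such data, `I ⊆ S`, `w₀` the longest element of `W`
and `w_I` that of `W_I`. Suppose that every element of `S` commutes with all but at most one other
element of `S` (all irreducible components have rank at most two), or that the polynomials
`p_{y,w}`, the structure constants `h_{x,y,z}` and the `n_{w₀x,w₀y}`, `x` and `y` longest in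
`x W_I`, `y W_I`, have nonnegative coefficients. Then the `n_{w₀x,w₀y}` are `∑ extDim x y i v^i`
with natural numbers `extDim x y i`, and `a(w₀ x) + a(w₀ w_I) ≤ s(x)` for every `x` longest in
`x W_I`, where `s(x)` is the largest value of `d(y) + deg n_{w₀y,w₀x}`, `d(y)` the largest degree
of `n_{w₀y,w₀z}`. -/
theorem result {B W : Type} [Group W] [Fintype W] {M : CoxeterMatrix B}
    (cs : CoxeterSystem M W) : Nonempty (KL cs) ∧
    ∀ (K : KL cs) (I : Set B) (w₀ wI : W), (∀ x, cs.length x ≤ cs.length w₀) →
      IsLongest cs (Par cs I) wI →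
      ((Finite B ∧ ∀ i j k : B, i ≠ j → i ≠ k → M i j ≠ 2 → M i k ≠ 2 → j = k) ∨
        K.Pos ∧ ∀ x y, Long cs I x → Long cs I y → Nonneg (n K I (w₀ * x) (w₀ * y))) →
      (∀ x y, Long cs I x → Long cs I y →
        (∀ i : ℕ, co (n K I (w₀ * x) (w₀ * y)) i = extDim K I w₀ x y i) ∧
          ∀ k : ℤ, k < 0 → co (n K I (w₀ * x) (w₀ * y)) k = 0) ∧
      ∀ x, Long cs I x → K.a (w₀ * x) + K.a (w₀ * wI) ≤ slam cs I (extDim K I w₀) x := by
  refine ⟨kl_exists cs, fun K I w₀ wI hw₀ hwI h => ?_⟩
  rcases h with ⟨hB, hM⟩ | ⟨hP, hn⟩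
  · obtain ⟨hP, hn⟩ := pos_match K hB hM I w₀ wI hw₀ hwI
    exact fin_main K I w₀ wI hw₀ hwI hP hn
  · exact fin_main K I w₀ wI hw₀ hwI hP hn

end Pool.Agent.Results.MP_a20dfd_al.ProjDimBound
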